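import Pool.Agent.W525.CB.Stm

/-! Project CB, part GLOB: global functions are constant. -/

set_option autoImplicit false

open AlgebraicGeometry CategoryTheory Order

namespace Pool.Agent.W765.CB.Glob

open Pool.Agent.H187R3 Pool.Agent.W525.CB

/-- global functions on a proper variety over an algebraically closed field are constant -/
theorem main : S_SEC → S_GLOB := by
  intro hsec k _ _ X _ f _ φ hφ
  have hmem : φ ∈ secIn (RingHom.id X.functionField) (⊤ : X.Opens) := by
    apply hsec X X.functionField (RingHom.id _) ⊤ trivial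
    intro x _
    obtain ⟨s, hs⟩ := hφ x
    exact ⟨s, hs⟩
  obtain ⟨hη, s, hs⟩ := hmem
  have hint : ((Scheme.ΓSpecIso (CommRingCat.of k)).inv ≫ f.appTop).hom.IsIntegral := by
    apply RingHom.isIntegral_respectsIso.2
      (e := (Scheme.ΓSpecIso (CommRingCat.of k)).symm.commRingCatIsoToRingEquiv)
    exact isIntegral_appTop_of_universallyClosed f
  have hb : Function.Bijective ((Scheme.ΓSpecIso (CommRingCat.of k)).inv ≫ f.appTop).hom :=
    IsAlgClosed.ringHom_bijective_of_isIntegral _ hint
  obtain ⟨c, hc⟩ := hb.2 s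
  refine ⟨c, ?_⟩
  rw [← hs, ← hc]
  rfl

end Pool.Agent.W765.CB.Glob
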